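import Pool.Agent.Helper74.Perm.Op

/-!
# Every lattice inequality that fails in some lattice fails in some finite `Reg(e)`
-/

namespace Pool.Agent.Helper74.Perm

open Relation

universe u

/-- `s ≤ t` holds in all lattices -/
def LeAll (s t : LatTerm) : Prop :=
  ∀ (L : Type u) [Lattice L] (v : ℕ → L), s.eval v ≤ t.eval v

/-- the model with two points -/
def twoPt (S : ℕ → Prop) : Model where
  E := Bool
  fin := inferInstance
  lt a b := a = false ∧ b = true
  irrefl := by simp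
  trans := by simp
  top := true
  lt_top := by simp
  ν g a b := S g ∧ a = false ∧ b = true
  ν_lt := by simp
  ν_trans := by
    rintro g u v w ⟨_, h1, h2⟩ ⟨_, h3, h4⟩
    rw [h2] at h3
    exact absurd h3 (by simp)
  lh := by
    rintro t u v w ⟨h1, h2⟩ ⟨h3, h4⟩
    rw [h2] at h3
    exact absurd h3 (by simp)

theorem twoPt_transGen {R : Bool → Bool → Prop} (h : ∀ a b, R a b → a = false ∧ b = true)
    (h' : TransGen R false true) : R false true := by
  have key : ∀ c, TransGen R false c → c = true ∧ R false c := by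
    intro c hc
    induction hc with
    | single h1 => exact ⟨(h _ _ h1).2, h1⟩
    | tail _ h2 ih =>
      rw [(h _ _ h2).1] at ih
      exact absurd ih.1 (by simp)
  exact (key _ h').2

theorem twoPt_sup {S : ℕ → Prop} {s t : LatTerm}
    (h : evr (twoPt S).ν (.sup s t) false true) :
    evr (twoPt S).ν s false true ∨ evr (twoPt S).ν t false true := by
  change TransGen _ _ _ at h
  refine twoPt_transGen ?_ h
  rintro a b (h | h)
  · exact (twoPt S).ev_lt h
  · exact (twoPt S).ev_lt h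

theorem twoPt_all (t : LatTerm) : evr (twoPt fun _ => True).ν t false true := by
  induction t with
  | var g => exact ⟨trivial, rfl, rfl⟩
  | sup s t ihs iht => exact evr_sup_left _ _ ihs
  | inf s t ihs iht => exact ⟨ihs, iht⟩

theorem twoPt_gen (g : ℕ) (t : LatTerm) (h : evr (twoPt fun n => n = g).ν t false true) :
    LeAll.{u} (.var g) t := by
  induction t with
  | var n =>
    obtain ⟨h, -⟩ := h
    change n = g at h
    subst h
    intro L _ v
    exact le_rfl
  | sup s t ihs iht =>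
    intro L _ v
    rcases twoPt_sup h with h | h
    · exact (ihs h L v).trans le_sup_left
    · exact (iht h L v).trans le_sup_right
  | inf s t ihs iht =>
    intro L _ v
    exact le_inf (ihs h.1 L v) (iht h.2 L v)

/-- `x` is the least element and all pairs `(x, c)` lie in the value of `s` -/
structure Inv (C : Model) (x : C.E) (s : LatTerm) : Prop where
  ne : C.top ≠ x
  bot : ∀ c, c ≠ x → C.lt x c
  hs : ∀ c, c ≠ x → evr C.ν s x c

theorem Inv.not_lt {C : Model} {x : C.E} {s : LatTerm} (h : Inv C x s) (c : C.E) :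
    ¬ C.lt c x := by
  intro hc
  by_cases hcx : c = x
  · rw [hcx] at hc; exact C.irrefl _ hc
  · exact C.irrefl _ (C.trans _ _ _ hc (h.bot c hcx))

/-- the level step applied to a model with the invariant -/
def Inv.step {C : Model} {x : C.E} {s : LatTerm} (h : Inv C x s) (T : Model) : Model :=
  op C T x h.ne h.not_lt h.bot

theorem Inv.step_upper {C : Model} {x : C.E} {s : LatTerm} (h : Inv C x s) (T : Model)
    (t : LatTerm) (p q : (h.step T).E) (hpq : evr (h.step T).ν t p q) :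
    comb ⟨C.top, h.ne⟩ (evr C.ν t x C.top) (evr C.ν t) (evr T.ν t) p q :=
  evr_op_upper C T x h.ne t p q hpq

theorem Inv.step_lower {C : Model} {x : C.E} {s : LatTerm} (h : Inv C x s) (T : Model)
    (t : LatTerm) (p q : (h.step T).E)
    (hpq : comb ⟨C.top, h.ne⟩ False (evr C.ν t) (evr T.ν t) p q) :
    evr (h.step T).ν t p q :=
  evr_op_lower C T x h.ne h.not_lt t p q hpq

theorem Inv.step_inv {C : Model} {x : C.E} {s₁ s₂ : LatTerm} (h : Inv C x (.inf s₁ s₂))
    (T : Model) (h₁ : ∃ b, evr T.ν s₁ b T.top) (h₂ : ∃ b, evr T.ν s₂ b T.top) :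
    Inv (h.step T) OpPt.bot (.inf s₁ s₂) where
  ne := by
    intro e
    change (OpPt.top : OpPt {v : T.E // v ≠ T.top} {c : C.E // c ≠ x}) = OpPt.bot at e
    cases e
  bot := by
    rintro (_ | _ | ⟨v, c⟩) hc
    · exact (hc rfl).elim
    · trivial
    · exact h.bot _ c.2
  hs := by
    have hne : ∀ b t, evr T.ν t b T.top → b ≠ T.top := by
      intro b t hb e
      rw [e] at hb
      exact T.irrefl _ (T.ev_lt hb)
    have key : ∀ t, evr C.ν t x C.top → (∃ b, evr T.ν t b T.top) →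
        evr (h.step T).ν t OpPt.bot OpPt.top := by
      rintro t ht ⟨b, hb⟩
      have h1 : evr (h.step T).ν t OpPt.bot (OpPt.mk ⟨b, hne b t hb⟩ ⟨C.top, h.ne⟩) :=
        h.step_lower T t _ _ ht
      have h2 : evr (h.step T).ν t (OpPt.mk ⟨b, hne b t hb⟩ ⟨C.top, h.ne⟩) OpPt.top :=
        h.step_lower T t _ _ ⟨Or.inl rfl, hb⟩
      exact (h.step T).ev_trans h1 h2
    rintro (_ | _ | ⟨v, c⟩) hc
    · exact (hc rfl).elim
    · have := h.hs C.top h.ne
      exact ⟨key _ this.1 h₁, key _ this.2 h₂⟩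
    · exact h.step_lower T _ _ _ (h.hs _ c.2)

theorem Inv.step_mono {C : Model} {x : C.E} {s : LatTerm} (h : Inv C x s) (T : Model)
    (t : LatTerm) (ht : evr (h.step T).ν t OpPt.bot (h.step T).top) : evr C.ν t x C.top :=
  h.step_upper T t _ _ ht

theorem Inv.step_tail {C : Model} {x : C.E} {s : LatTerm} (h : Inv C x s) (T : Model)
    (r : LatTerm) (hT : ∀ v, ¬ evr T.ν r v T.top) (p : (h.step T).E) (hp : p ≠ OpPt.bot) :
    ¬ evr (h.step T).ν r p (h.step T).top := by
  intro hh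
  have h1 := h.step_upper T r _ _ hh
  rcases p with (_ | _ | ⟨v, c⟩)
  · exact hp rfl
  · exact h1
  · exact hT _ h1.2

theorem Inv.step_var {C : Model} {x : C.E} {s : LatTerm} (h : Inv C x s) (T : Model)
    (g : ℕ) (hT : ∀ v, ¬ evr T.ν (.var g) v T.top) (p : (h.step T).E) :
    ¬ evr (h.step T).ν (.var g) p (h.step T).top := by
  by_cases hp : p = OpPt.bot
  · subst hp
    rintro ⟨-, v, hv⟩
    exact hT v hv
  · exact h.step_tail T _ hT p hp

theorem Inv.step_sup {C : Model} {x : C.E} {s : LatTerm} (h : Inv C x s) (T : Model)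
    (a b : LatTerm) (hT : ∀ v, ¬ evr T.ν (.sup a b) v T.top) (ha : ¬ evr C.ν a x C.top)
    (hb : ¬ evr C.ν b x C.top) (p : (h.step T).E) :
    ¬ evr (h.step T).ν (.sup a b) p (h.step T).top := by
  by_cases hp : p = OpPt.bot
  · subst hp
    intro hh
    change TransGen _ _ _ at hh
    cases hh with
    | single h1 =>
      rcases h1 with h1 | h1
      · exact ha (h.step_mono T _ h1)
      · exact hb (h.step_mono T _ h1)
    | tail h1 h2 =>
      rename_i q
      have h3 : evr (h.step T).ν (.sup a b) OpPt.bot q := h1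
      have h4 : q ≠ OpPt.bot := by
        intro e
        rw [e] at h3
        exact (h.step T).irrefl _ ((h.step T).ev_lt h3)
      refine h.step_tail T _ hT q h4 ?_
      rcases h2 with h2 | h2
      · exact evr_sup_left _ _ h2
      · exact evr_sup_right _ _ h2
  · exact h.step_tail T _ hT p hp

/-- the refuting models for `s ≤ r` -/
def HasGood (s r : LatTerm) : Prop :=
  ∃ (M : Model) (x : M.E), Inv M x s ∧ ∀ v, ¬ evr M.ν r v M.top

theorem frame {s₁ s₂ r : LatTerm} (h₁ : HasGood s₁ r) (h₂ : HasGood s₂ r) :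
    ∃ T : Model, (∃ b, evr T.ν s₁ b T.top) ∧ (∃ b, evr T.ν s₂ b T.top) ∧
      ∀ v, ¬ evr T.ν r v T.top := by
  obtain ⟨M, x, hM, hMr⟩ := h₁
  obtain ⟨N, y, hN, hNr⟩ := h₂
  refine ⟨glue M N, ⟨some (.inl ⟨x, hM.ne.symm⟩), ?_⟩, ⟨some (.inr ⟨y, hN.ne.symm⟩), ?_⟩, ?_⟩
  · exact (evr_gl M N s₁ _ _).2 (hM.hs _ hM.ne)
  · exact (evr_gl M N s₂ _ _).2 (hN.hs _ hN.ne)
  · intro v hv
    have h := (evr_gl M N r _ _).1 hv
    rcases v with (_ | v | v)
    · exact h
    · exact hMr _ h
    · exact hNr _ h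

theorem extend (s₁ s₂ : LatTerm) (h₁ : ∀ r, ¬ LeAll.{u} s₁ r → HasGood s₁ r)
    (h₂ : ∀ r, ¬ LeAll.{u} s₂ r → HasGood s₂ r) :
    ∀ r, ¬ LeAll.{u} (.inf s₁ s₂) r → ∀ (C : Model) (x : C.E), Inv C x (.inf s₁ s₂) →
      ∃ (C' : Model) (x' : C'.E), Inv C' x' (.inf s₁ s₂) ∧
        (∀ t, evr C'.ν t x' C'.top → evr C.ν t x C.top) ∧ ∀ v, ¬ evr C'.ν r v C'.top := by
  have fr : ∀ r, ¬ LeAll.{u} (.inf s₁ s₂) r → ∃ T : Model, (∃ b, evr T.ν s₁ b T.top) ∧
      (∃ b, evr T.ν s₂ b T.top) ∧ ∀ v, ¬ evr T.ν r v T.top := by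
    intro r hr
    apply frame
    · exact h₁ r fun h => hr fun L _ v => inf_le_left.trans (h L v)
    · exact h₂ r fun h => hr fun L _ v => inf_le_right.trans (h L v)
  intro r
  induction r with
  | var g =>
    intro hr C x hC
    obtain ⟨T, hT1, hT2, hT3⟩ := fr _ hr
    exact ⟨hC.step T, OpPt.bot, hC.step_inv T hT1 hT2, fun t ht => hC.step_mono T t ht,
      hC.step_var T g hT3⟩
  | inf a b iha ihb =>
    intro hr C x hC
    by_cases ha : LeAll.{u} (.inf s₁ s₂) a
    · have hb : ¬ LeAll.{u} (.inf s₁ s₂) b :=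
        fun hb => hr fun L _ v => le_inf (ha L v) (hb L v)
      obtain ⟨C', x', h1, h2, h3⟩ := ihb hb C x hC
      exact ⟨C', x', h1, h2, fun v hv => h3 v hv.2⟩
    · obtain ⟨C', x', h1, h2, h3⟩ := iha ha C x hC
      exact ⟨C', x', h1, h2, fun v hv => h3 v hv.1⟩
  | sup a b iha ihb =>
    intro hr C x hC
    have ha : ¬ LeAll.{u} (.inf s₁ s₂) a := fun h => hr fun L _ v => (h L v).trans le_sup_left
    have hb : ¬ LeAll.{u} (.inf s₁ s₂) b := fun h => hr fun L _ v => (h L v).trans le_sup_right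
    obtain ⟨C₁, x₁, h1, h2, h3⟩ := iha ha C x hC
    obtain ⟨C₂, x₂, h4, h5, h6⟩ := ihb hb C₁ x₁ h1
    obtain ⟨T, hT1, hT2, hT3⟩ := fr _ hr
    refine ⟨h4.step T, OpPt.bot, h4.step_inv T hT1 hT2,
      fun t ht => h2 t (h5 t (h4.step_mono T t ht)), ?_⟩
    exact h4.step_sup T a b hT3 (fun h => h3 _ (h5 _ h)) (h6 _)

theorem hasGood (s : LatTerm) : ∀ r, ¬ LeAll.{u} s r → HasGood s r := by
  induction s with
  | var g =>
    intro r hr
    refine ⟨twoPt fun n => n = g, false, ⟨by simp [twoPt], ?_, ?_⟩, ?_⟩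
    · intro c hc
      change _ = _ ∧ _ = _
      refine ⟨rfl, ?_⟩
      cases c
      · exact (hc rfl).elim
      · rfl
    · intro c hc
      refine ⟨rfl, rfl, ?_⟩
      cases c
      · exact (hc rfl).elim
      · rfl
    · intro v hv
      cases v
      · exact hr (twoPt_gen g r hv)
      · exact (twoPt _).irrefl _ ((twoPt _).ev_lt hv)
  | sup s₁ s₂ ih₁ ih₂ =>
    intro r hr
    by_cases h : LeAll.{u} s₁ r
    · have h' : ¬ LeAll.{u} s₂ r := fun h' => hr fun L _ v => sup_le (h L v) (h' L v)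
      obtain ⟨M, x, hM, hMr⟩ := ih₂ r h'
      exact ⟨M, x, ⟨hM.ne, hM.bot, fun c hc => evr_sup_right _ _ (hM.hs c hc)⟩, hMr⟩
    · obtain ⟨M, x, hM, hMr⟩ := ih₁ r h
      exact ⟨M, x, ⟨hM.ne, hM.bot, fun c hc => evr_sup_left _ _ (hM.hs c hc)⟩, hMr⟩
  | inf s₁ s₂ ih₁ ih₂ =>
    intro r hr
    have h0 : Inv (twoPt fun _ => True) false (.inf s₁ s₂) := by
      refine ⟨by simp [twoPt], ?_, ?_⟩
      · intro c hc
        refine ⟨rfl, ?_⟩
        cases c
        · exact (hc rfl).elim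
        · rfl
      · intro c hc
        cases c
        · exact (hc rfl).elim
        · exact twoPt_all _
    obtain ⟨C', x', h1, -, h3⟩ := extend s₁ s₂ ih₁ ih₂ r hr _ _ h0
    exact ⟨C', x', h1, h3⟩

/-- An inequality that fails in some lattice fails in some `Reg(e)` with `e` finite. -/
theorem refute (s t : LatTerm) (h : ¬ LeAll.{u} s t) :
    ∃ (E : Type) (_ : Finite E) (e : StrictOrdering E) (v : ℕ → Reg e),
      ¬ s.eval v ≤ t.eval v := by
  obtain ⟨M, x, hM, hMr⟩ := hasGood s t h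
  refine ⟨M.E, M.fin, M.ord, M.val, ?_⟩
  rw [Reg.le_def, M.eval_val, M.eval_val]
  intro hle
  exact hMr x (hle (a := (x, M.top)) (hM.hs _ hM.ne))

end Pool.Agent.Helper74.Perm
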