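import Pool.Agent.Helper74.Perm.Reg

/-!
# Labelled finite posets and their evaluation in `Reg(e)`
-/

namespace Pool.Agent.Helper74.Perm

open Relation

/-- evaluation of a term on relations: meet is intersection, join is transitive closure of the
union -/
def evr {E : Type} (ν : ℕ → E → E → Prop) : LatTerm → E → E → Prop
  | .var g => ν g
  | .sup s t => TransGen (fun u v => evr ν s u v ∨ evr ν t u v)
  | .inf s t => fun u v => evr ν s u v ∧ evr ν t u v

theorem evr_sup_left {E : Type} {ν : ℕ → E → E → Prop} {s t : LatTerm} (u v : E)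
    (h : evr ν s u v) : evr ν (.sup s t) u v := by
  change TransGen _ u v
  exact TransGen.single (Or.inl h)

theorem evr_sup_right {E : Type} {ν : ℕ → E → E → Prop} {s t : LatTerm} (u v : E)
    (h : evr ν t u v) : evr ν (.sup s t) u v := by
  change TransGen _ u v
  exact TransGen.single (Or.inr h)

theorem evr_lt {E : Type} {ν : ℕ → E → E → Prop} {lt : E → E → Prop}
    (htr : ∀ x y z, lt x y → lt y z → lt x z) (h : ∀ g u v, ν g u v → lt u v) :
    ∀ t u v, evr ν t u v → lt u v := by
  intro t
  induction t with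
  | var g => exact h g
  | sup s t ihs iht =>
    intro u v huv
    change TransGen _ u v at huv
    induction huv with
    | single h1 => exact h1.elim (ihs _ _) (iht _ _)
    | tail _ h2 ih => exact htr _ _ _ ih (h2.elim (ihs _ _) (iht _ _))
  | inf s t ihs iht =>
    intro u v huv
    exact ihs _ _ huv.1

theorem evr_trans {E : Type} {ν : ℕ → E → E → Prop}
    (h : ∀ g u v w, ν g u v → ν g v w → ν g u w) :
    ∀ t u v w, evr ν t u v → evr ν t v w → evr ν t u w := by
  intro t
  induction t with
  | var g => exact h g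
  | sup s t ihs iht => exact fun u v w h1 h2 => TransGen.trans h1 h2
  | inf s t ihs iht =>
    exact fun u v w h1 h2 => ⟨ihs _ _ _ h1.1 h2.1, iht _ _ _ h1.2 h2.2⟩

/-- A finite strict order with a greatest element, with a relation for every variable, such that
the value of every term is left hereditary. -/
structure Model where
  E : Type
  fin : Finite E
  lt : E → E → Prop
  irrefl : ∀ x, ¬ lt x x
  trans : ∀ x y z, lt x y → lt y z → lt x z
  top : E
  lt_top : ∀ v, v ≠ top → lt v top
  ν : ℕ → E → E → Prop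
  ν_lt : ∀ g u v, ν g u v → lt u v
  ν_trans : ∀ g u v w, ν g u v → ν g v w → ν g u w
  lh : ∀ t u v w, lt u v → lt v w → evr ν t u w → evr ν t u v

namespace Model

theorem not_top_lt (M : Model) (v : M.E) : ¬ M.lt M.top v := by
  intro h
  by_cases hv : v = M.top
  · subst hv; exact M.irrefl _ h
  · exact M.irrefl _ (M.trans _ _ _ h (M.lt_top v hv))

theorem ev_lt (M : Model) {t : LatTerm} {u v : M.E} (h : evr M.ν t u v) : M.lt u v :=
  evr_lt M.trans M.ν_lt t u v h

theorem ev_trans (M : Model) {t : LatTerm} {u v w : M.E} (h : evr M.ν t u v)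
    (h' : evr M.ν t v w) : evr M.ν t u w :=
  evr_trans M.ν_trans t u v w h h'

/-- the strict ordering of a model -/
def ord (M : Model) : StrictOrdering M.E where
  rel := {p | M.lt p.1 p.2}
  irrefl x h := M.irrefl x h
  trans x y z h h' := M.trans x y z h h'

theorem closed_ev (M : Model) (t : LatTerm) : ClosedRel {p : M.E × M.E | evr M.ν t p.1 p.2} :=
  fun _ _ _ h h' => M.ev_trans h h'

theorem open_ev (M : Model) (t : LatTerm) :
    OpenRel M.ord.rel {p : M.E × M.E | evr M.ν t p.1 p.2} := by
  constructor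
  · rintro ⟨x, y⟩ h
    exact M.ev_lt h
  · rintro x y z ⟨h1, h1'⟩ ⟨h2, h2'⟩
    refine ⟨M.trans _ _ _ h1 h2, fun h => h1' ?_⟩
    exact M.lh t x y z h1 h2 h

theorem reg_ev (M : Model) (t : LatTerm) :
    {p : M.E × M.E | evr M.ν t p.1 p.2} ⊆ M.ord.rel ∧
    {p : M.E × M.E | evr M.ν t p.1 p.2} =
      cl (interiorRel M.ord.rel {p : M.E × M.E | evr M.ν t p.1 p.2}) := by
  refine ⟨(M.open_ev t).1, ?_⟩
  have h1 : interiorRel M.ord.rel {p : M.E × M.E | evr M.ν t p.1 p.2} =
      {p : M.E × M.E | evr M.ν t p.1 p.2} :=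
    Set.Subset.antisymm (interiorRel_subset _ _) (subset_interiorRel (M.open_ev t) subset_rfl)
  rw [h1, cl_eq_of_closed (M.closed_ev t)]

/-- the valuation in `Reg` given by a model -/
def val (M : Model) (g : ℕ) : Reg M.ord :=
  ⟨{p | M.ν g p.1 p.2}, M.reg_ev (.var g)⟩

theorem eval_val (M : Model) (t : LatTerm) :
    (t.eval M.val).1 = {p : M.E × M.E | evr M.ν t p.1 p.2} := by
  induction t with
  | var g => rfl
  | sup s t ihs iht =>
    change cl ((s.eval M.val).1 ∪ (t.eval M.val).1) = _
    rw [ihs, iht]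
    rfl
  | inf s t ihs iht =>
    change cl (interiorRel M.ord.rel ((s.eval M.val).1 ∩ (t.eval M.val).1)) = _
    rw [ihs, iht]
    exact (M.reg_ev (.inf s t)).2.symm

end Model

/-! ### Gluing two models at the top -/

section Glue

variable {A B : Type} {a : A} {b : B}

/-- the combined relation on the glued set -/
def gl (P : A → A → Prop) (Q : B → B → Prop) :
    Option ({v : A // v ≠ a} ⊕ {v : B // v ≠ b}) →
    Option ({v : A // v ≠ a} ⊕ {v : B // v ≠ b}) → Prop
  | some (.inl u), some (.inl v) => P u v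
  | some (.inl u), none => P u a
  | some (.inr u), some (.inr v) => Q u v
  | some (.inr u), none => Q u b
  | _, _ => False

open Classical in
/-- embedding of the left part -/
noncomputable def iL (a : A) (b : B) (u : A) : Option ({v : A // v ≠ a} ⊕ {v : B // v ≠ b}) :=
  if h : u = a then none else some (.inl ⟨u, h⟩)

open Classical in
/-- embedding of the right part -/
noncomputable def iR (a : A) (b : B) (u : B) : Option ({v : A // v ≠ a} ⊕ {v : B // v ≠ b}) :=
  if h : u = b then none else some (.inr ⟨u, h⟩)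

theorem iL_top : iL a b a = none := by simp [iL]
theorem iR_top : iR a b b = none := by simp [iR]
theorem iL_ne {u : A} (h : u ≠ a) : iL a b u = some (.inl ⟨u, h⟩) := by simp [iL, h]
theorem iR_ne {u : B} (h : u ≠ b) : iR a b u = some (.inr ⟨u, h⟩) := by simp [iR, h]

theorem gl_iL {P : A → A → Prop} {Q : B → B → Prop} (hP : ∀ v, ¬ P a v) {u v : A} (h : P u v) :
    gl P Q (iL a b u) (iL a b v) := by
  have hu : u ≠ a := fun hu => hP v (hu ▸ h)
  by_cases hv : v = a
  · subst hv; rw [iL_ne hu, iL_top]; exact h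
  · rw [iL_ne hu, iL_ne hv]; exact h

theorem gl_iR {P : A → A → Prop} {Q : B → B → Prop} (hQ : ∀ v, ¬ Q b v) {u v : B} (h : Q u v) :
    gl P Q (iR a b u) (iR a b v) := by
  have hu : u ≠ b := fun hu => hQ v (hu ▸ h)
  by_cases hv : v = b
  · subst hv; rw [iR_ne hu, iR_top]; exact h
  · rw [iR_ne hu, iR_ne hv]; exact h

theorem gl_trans {P : A → A → Prop} {Q : B → B → Prop}
    (hP : ∀ x y z, P x y → P y z → P x z) (hQ : ∀ x y z, Q x y → Q y z → Q x z) :
    ∀ p q r : Option ({v : A // v ≠ a} ⊕ {v : B // v ≠ b}),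
      gl P Q p q → gl P Q q r → gl P Q p r := by
  rintro (_ | u | u) (_ | v | v) (_ | w | w) h1 h2 <;>
    first
    | exact h1.elim
    | exact h2.elim
    | exact hP _ _ _ h1 h2
    | exact hQ _ _ _ h1 h2

theorem gl_mono {P P' : A → A → Prop} {Q Q' : B → B → Prop}
    (hP : ∀ x y, P x y → P' x y) (hQ : ∀ x y, Q x y → Q' x y) :
    ∀ p q : Option ({v : A // v ≠ a} ⊕ {v : B // v ≠ b}), gl P Q p q → gl P' Q' p q := by
  rintro (_ | u | u) (_ | v | v) h1 <;>
    first
    | exact h1.elim
    | exact hP _ _ h1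
    | exact hQ _ _ h1

theorem gl_and {P P' : A → A → Prop} {Q Q' : B → B → Prop} :
    ∀ p q : Option ({v : A // v ≠ a} ⊕ {v : B // v ≠ b}),
      (gl P Q p q ∧ gl P' Q' p q) ↔ gl (fun x y => P x y ∧ P' x y) (fun x y => Q x y ∧ Q' x y) p q
    := by
  rintro (_ | u | u) (_ | v | v) <;> simp [gl]

/-- a path lifting statement -/
theorem gl_transGen {P : A → A → Prop} {Q : B → B → Prop} (hP : ∀ v, ¬ P a v)
    (hQ : ∀ v, ¬ Q b v) :
    ∀ p q : Option ({v : A // v ≠ a} ⊕ {v : B // v ≠ b}),
      gl (TransGen P) (TransGen Q) p q → TransGen (gl P Q) p q := by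
  have h1 : ∀ u v, TransGen P u v → TransGen (gl P Q) (iL a b u) (iL a b v) :=
    fun u v h => TransGen.lift (iL a b) (fun _ _ h => gl_iL hP h) _ _ h
  have h2 : ∀ u v, TransGen Q u v → TransGen (gl P Q) (iR a b u) (iR a b v) :=
    fun u v h => TransGen.lift (iR a b) (fun _ _ h => gl_iR hQ h) _ _ h
  rintro (_ | u | u) (_ | v | v) h
  · exact h.elim
  · exact h.elim
  · exact h.elim
  · have := h1 u a h
    rwa [iL_top, iL_ne u.2] at this
  · have := h1 u v h
    rwa [iL_ne v.2, iL_ne u.2] at this
  · exact h.elim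
  · have := h2 u b h
    rwa [iR_top, iR_ne u.2] at this
  · exact h.elim
  · have := h2 u v h
    rwa [iR_ne v.2, iR_ne u.2] at this

end Glue

/-- evaluation in the glued structure -/
theorem evr_gl (M N : Model) (t : LatTerm) :
    ∀ p q : Option ({v : M.E // v ≠ M.top} ⊕ {v : N.E // v ≠ N.top}),
      evr (fun g => gl (M.ν g) (N.ν g)) t p q ↔ gl (evr M.ν t) (evr N.ν t) p q := by
  induction t with
  | var g => exact fun p q => Iff.rfl
  | inf s t ihs iht =>
    intro p q
    change (_ ∧ _) ↔ _
    rw [ihs, iht, gl_and]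
    rfl
  | sup s t ihs iht =>
    intro p q
    constructor
    · intro h
      change TransGen _ p q at h
      have hstep : ∀ p q : Option ({v : M.E // v ≠ M.top} ⊕ {v : N.E // v ≠ N.top}),
          (evr (fun g => gl (M.ν g) (N.ν g)) s p q ∨ evr (fun g => gl (M.ν g) (N.ν g)) t p q) →
          gl (evr M.ν (.sup s t)) (evr N.ν (.sup s t)) p q := by
        rintro p q (h | h)
        · exact gl_mono evr_sup_left evr_sup_left p q ((ihs p q).1 h)
        · exact gl_mono evr_sup_right evr_sup_right p q ((iht p q).1 h)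
      induction h with
      | single h => exact hstep _ _ h
      | tail _ h ih =>
        exact gl_trans (fun _ _ _ => TransGen.trans) (fun _ _ _ => TransGen.trans) _ _ _ ih
          (hstep _ _ h)
    · intro h
      have h' := gl_transGen (P := fun u v => evr M.ν s u v ∨ evr M.ν t u v)
        (Q := fun u v => evr N.ν s u v ∨ evr N.ν t u v)
        (fun v hv => M.not_top_lt v (hv.elim M.ev_lt M.ev_lt))
        (fun v hv => N.not_top_lt v (hv.elim N.ev_lt N.ev_lt)) p q h
      change TransGen _ p q
      refine TransGen.mono ?_ _ _ h'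
      rintro (_ | u | u) (_ | v | v) h1
      · exact h1.elim
      · exact h1.elim
      · exact h1.elim
      · exact h1.imp (fun h => (ihs _ _).2 h) (fun h => (iht _ _).2 h)
      · exact h1.imp (fun h => (ihs _ _).2 h) (fun h => (iht _ _).2 h)
      · exact h1.elim
      · exact h1.imp (fun h => (ihs _ _).2 h) (fun h => (iht _ _).2 h)
      · exact h1.elim
      · exact h1.imp (fun h => (ihs _ _).2 h) (fun h => (iht _ _).2 h)

/-- gluing two models at the top -/
def glue (M N : Model) : Model where
  E := Option ({v : M.E // v ≠ M.top} ⊕ {v : N.E // v ≠ N.top})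
  fin := by
    have := M.fin
    have := N.fin
    infer_instance
  lt := gl M.lt N.lt
  irrefl := by
    rintro (_ | u | u) h
    · exact h
    · exact M.irrefl _ h
    · exact N.irrefl _ h
  trans := gl_trans M.trans N.trans
  top := none
  lt_top := by
    rintro (_ | u | u) h
    · exact (h rfl).elim
    · exact M.lt_top _ u.2
    · exact N.lt_top _ u.2
  ν g := gl (M.ν g) (N.ν g)
  ν_lt g := gl_mono (M.ν_lt g) (N.ν_lt g)
  ν_trans g := gl_trans (M.ν_trans g) (N.ν_trans g)
  lh := by
    intro t p q r h1 h2 h3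
    rw [evr_gl] at h3 ⊢
    revert h1 h2 h3
    rcases p with (_ | u | u) <;> rcases q with (_ | v | v) <;> rcases r with (_ | w | w) <;>
      intro h1 h2 h3 <;>
      first
      | exact h1.elim
      | exact h2.elim
      | exact h3.elim
      | exact M.lh t _ _ _ h1 h2 h3
      | exact N.lh t _ _ _ h1 h2 h3

end Pool.Agent.Helper74.Perm
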