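import Pool.Agent.Helper74.Perm.Model

/-!
# The level step
-/

namespace Pool.Agent.Helper74.Perm

open Relation

/-- points of the new structure -/
inductive OpPt (A B : Type) : Type
  | bot
  | top
  | mk (v : A) (c : B)

section Comb

variable {A B : Type} {a : A} {x y : B}

/-- The combined relation. `A` with top `a` is the frame, `B` with bottom `x` and top `y` is the
structure put below every point of the frame other than the top. -/
def comb (y : {c : B // c ≠ x}) (R : Prop) (P : B → B → Prop) (Q : A → A → Prop) :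
    OpPt {v : A // v ≠ a} {c : B // c ≠ x} → OpPt {v : A // v ≠ a} {c : B // c ≠ x} → Prop
  | .bot, .top => R
  | .bot, .mk _ c => P x c
  | .mk v c, .top => (c = y ∨ P c y) ∧ Q v a
  | .mk v c, .mk v' c' => (v = v' ∧ P c c') ∨ (Q v v' ∧ c' = y ∧ (c = y ∨ P c y))
  | _, _ => False

variable {yy : {c : B // c ≠ x}}

theorem comb_mono {R R' : Prop} {P P' : B → B → Prop} {Q Q' : A → A → Prop} (hR : R → R')
    (hP : ∀ x y, P x y → P' x y) (hQ : ∀ x y, Q x y → Q' x y) :
    ∀ p q : OpPt {v : A // v ≠ a} {c : B // c ≠ x}, comb yy R P Q p q → comb yy R' P' Q' p q := by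
  rintro (_ | _ | ⟨v, c⟩) (_ | _ | ⟨v', c'⟩) h
  · exact h
  · exact hR h
  · exact hP _ _ h
  · exact h
  · exact h
  · exact h
  · exact h
  · exact ⟨h.1.imp id (hP _ _), hQ _ _ h.2⟩
  · rcases h with h | h
    · exact Or.inl ⟨h.1, hP _ _ h.2⟩
    · exact Or.inr ⟨hQ _ _ h.1, h.2.1, h.2.2.imp id (hP _ _)⟩

theorem comb_trans {R : Prop} {P : B → B → Prop} {Q : A → A → Prop}
    (hP : ∀ x y z, P x y → P y z → P x z) (hQ : ∀ x y z, Q x y → Q y z → Q x z)
    (hPy : ∀ c, ¬ P yy c)
    (hR : P x yy → (∃ v, Q v a) → R) :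
    ∀ p q r : OpPt {v : A // v ≠ a} {c : B // c ≠ x},
      comb yy R P Q p q → comb yy R P Q q r → comb yy R P Q p r := by
  rintro (_ | _ | ⟨v, c⟩) (_ | _ | ⟨v', c'⟩) (_ | _ | ⟨v'', c''⟩) h1 h2 <;>
    first
    | exact h1.elim
    | exact h2.elim
    | skip
  · -- bot, mk, top
    obtain ⟨h2, h3⟩ := h2
    apply hR _ ⟨_, h3⟩
    rcases h2 with h2 | h2
    · rw [h2] at h1; exact h1
    · exact hP _ _ _ h1 h2
  · -- bot, mk, mk
    rcases h2 with ⟨_, h2⟩ | ⟨_, h3, h4⟩
    · exact hP _ _ _ h1 h2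
    · rw [h3]
      rcases h4 with h4 | h4
      · rw [h4] at h1; exact h1
      · exact hP _ _ _ h1 h4
  · -- mk, mk, top
    obtain ⟨h2, h3⟩ := h2
    rcases h1 with ⟨h1, h4⟩ | ⟨h1, h4, h5⟩
    · rw [h1]
      refine ⟨Or.inr ?_, h3⟩
      rcases h2 with h2 | h2
      · rw [h2] at h4; exact h4
      · exact hP _ _ _ h4 h2
    · exact ⟨h5, hQ _ _ _ h1 h3⟩
  · -- mk, mk, mk
    rcases h1 with ⟨h1, h4⟩ | ⟨h1, h4, h5⟩
    · rcases h2 with ⟨h2, h6⟩ | ⟨h2, h6, h7⟩
      · exact Or.inl ⟨h1.trans h2, hP _ _ _ h4 h6⟩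
      · rw [h1]
        refine Or.inr ⟨h2, h6, Or.inr ?_⟩
        rcases h7 with h7 | h7
        · rw [h7] at h4; exact h4
        · exact hP _ _ _ h4 h7
    · rcases h2 with ⟨h2, h6⟩ | ⟨h2, h6, h7⟩
      · rw [h4] at h6
        exact (hPy _ h6).elim
      · exact Or.inr ⟨hQ _ _ _ h1 h2, h6, h5⟩

theorem comb_and {R R' : Prop} {P P' : B → B → Prop} {Q Q' : A → A → Prop}
    (hQ : ∀ v, ¬ Q v v) (hQ' : ∀ v, ¬ Q' v v) :
    ∀ p q : OpPt {v : A // v ≠ a} {c : B // c ≠ x},
      (comb yy R P Q p q ∧ comb yy R' P' Q' p q) ↔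
      comb yy (R ∧ R') (fun x y => P x y ∧ P' x y) (fun x y => Q x y ∧ Q' x y) p q := by
  rintro (_ | _ | ⟨v, c⟩) (_ | _ | ⟨v', c'⟩)
  · simp [comb]
  · simp [comb]
  · simp [comb]
  · simp [comb]
  · simp [comb]
  · simp [comb]
  · simp [comb]
  · simp only [comb]; tauto
  · simp only [comb]
    constructor
    · rintro ⟨⟨h1, h2⟩ | ⟨h1, h2, h3⟩, ⟨h4, h5⟩ | ⟨h4, h5, h6⟩⟩
      · exact Or.inl ⟨h1, h2, h5⟩
      · rw [h1] at h4; exact (hQ' _ h4).elim
      · rw [h4] at h1; exact (hQ _ h1).elim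
      · refine Or.inr ⟨⟨h1, h4⟩, h2, ?_⟩; tauto
    · rintro (⟨h1, h2, h3⟩ | ⟨⟨h1, h2⟩, h3, h4⟩)
      · exact ⟨Or.inl ⟨h1, h2⟩, Or.inl ⟨h1, h3⟩⟩
      · exact ⟨Or.inr ⟨h1, h3, h4.imp id (·.1)⟩, Or.inr ⟨h2, h3, h4.imp id (·.2)⟩⟩

open Classical in
/-- embedding of the copy at `v` -/
noncomputable def jC (x : B) (v : {v : A // v ≠ a}) (c : B) :
    OpPt {v : A // v ≠ a} {c : B // c ≠ x} :=
  if h : c = x then .bot else .mk v ⟨c, h⟩

open Classical in
/-- embedding of the frame -/
noncomputable def kT (a : A) (yy : {c : B // c ≠ x}) (v : A) : OpPt {v : A // v ≠ a} {c : B // c ≠ x} :=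
  if h : v = a then .top else .mk ⟨v, h⟩ yy

theorem jC_bot (v : {v : A // v ≠ a}) : jC x v x = .bot := by simp [jC]
theorem jC_ne (v : {v : A // v ≠ a}) {c : B} (h : c ≠ x) : jC x v c = .mk v ⟨c, h⟩ := by
  simp [jC, h]
theorem kT_top : kT a yy a = .top := by simp [kT]
theorem kT_ne {v : A} (h : v ≠ a) : kT a yy v = .mk ⟨v, h⟩ yy := by simp [kT, h]

theorem comb_jC {R : Prop} {P : B → B → Prop} {Q : A → A → Prop} (hP : ∀ c, ¬ P c x)
    (v : {v : A // v ≠ a}) {c c' : B} (h : P c c') :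
    comb yy R P Q (jC x v c) (jC x v c') := by
  have hc' : c' ≠ x := fun e => hP c (e ▸ h)
  rw [jC_ne v hc']
  by_cases hc : c = x
  · subst hc
    rw [jC_bot]
    exact h
  · rw [jC_ne v hc]
    exact Or.inl ⟨rfl, h⟩

theorem comb_kT {R : Prop} {P : B → B → Prop} {Q : A → A → Prop} (hQ : ∀ v, ¬ Q a v)
    {v v' : A} (h : Q v v') : comb yy R P Q (kT a yy v) (kT a yy v') := by
  have hv : v ≠ a := fun e => hQ v' (e ▸ h)
  rw [kT_ne hv]
  by_cases hv' : v' = a
  · subst hv'
    rw [kT_top]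
    exact ⟨Or.inl rfl, h⟩
  · rw [kT_ne hv']
    exact Or.inr ⟨h, rfl, Or.inl rfl⟩

theorem comb_transGen {P : B → B → Prop} {Q : A → A → Prop} (hP : ∀ c, ¬ P c x)
    (hQ : ∀ v, ¬ Q a v) :
    ∀ p q : OpPt {v : A // v ≠ a} {c : B // c ≠ x},
      comb yy False (TransGen P) (TransGen Q) p q → TransGen (comb yy False P Q) p q := by
  have h1 : ∀ (v : {v : A // v ≠ a}) c c', TransGen P c c' →
      TransGen (comb yy False P Q) (jC x v c) (jC x v c') :=
    fun v c c' h => TransGen.lift (jC x v) (fun _ _ h => comb_jC hP v h) _ _ h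
  have h2 : ∀ v v', TransGen Q v v' → TransGen (comb yy False P Q) (kT a yy v) (kT a yy v') :=
    fun v v' h => TransGen.lift (kT a yy) (fun _ _ h => comb_kT hQ h) _ _ h
  rintro (_ | _ | ⟨v, c⟩) (_ | _ | ⟨v', c'⟩) h
  · exact h.elim
  · exact h.elim
  · have := h1 v' _ _ h
    rwa [jC_bot, jC_ne v' c'.2] at this
  · exact h.elim
  · exact h.elim
  · exact h.elim
  · exact h.elim
  · obtain ⟨h3, h4⟩ := h
    have h5 := h2 _ _ h4
    rw [kT_ne v.2, kT_top] at h5
    rcases h3 with h3 | h3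
    · rw [h3]; exact h5
    · have h6 := h1 v _ _ h3
      rw [jC_ne v c.2, jC_ne v yy.2] at h6
      exact h6.trans h5
  · rcases h with ⟨h3, h4⟩ | ⟨h3, h4, h5⟩
    · have h6 := h1 v _ _ h4
      rw [jC_ne v c.2, jC_ne v c'.2] at h6
      rw [← h3]; exact h6
    · have h6 := h2 _ _ h3
      rw [kT_ne v.2, kT_ne v'.2] at h6
      rw [h4]
      rcases h5 with h5 | h5
      · rw [h5]; exact h6
      · have h7 := h1 v _ _ h5
        rw [jC_ne v c.2, jC_ne v yy.2] at h7
        exact h7.trans h6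

end Comb

/-- the relations of the new structure -/
def nuOp (C T : Model) (x : C.E) (hx : C.top ≠ x) (g : ℕ) :
    OpPt {v : T.E // v ≠ T.top} {c : C.E // c ≠ x} →
    OpPt {v : T.E // v ≠ T.top} {c : C.E // c ≠ x} → Prop :=
  comb ⟨C.top, hx⟩ (C.ν g x C.top ∧ ∃ v, T.ν g v T.top) (C.ν g) (T.ν g)

section Op

variable (C T : Model) (x : C.E) (hx : C.top ≠ x) (hbot : ∀ c, ¬ C.lt c x)

theorem evr_op_upper (t : LatTerm) :
    ∀ p q, evr (nuOp C T x hx) t p q →
      comb ⟨C.top, hx⟩ (evr C.ν t x C.top) (evr C.ν t) (evr T.ν t) p q := by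
  induction t with
  | var g =>
    intro p q h
    exact comb_mono (fun h => h.1) (fun _ _ h => h) (fun _ _ h => h) p q h
  | inf s t ihs iht =>
    intro p q h
    have h1 := ihs p q h.1
    have h2 := iht p q h.2
    exact (comb_and (fun v hv => T.irrefl _ (T.ev_lt hv)) (fun v hv => T.irrefl _ (T.ev_lt hv))
      p q).1 ⟨h1, h2⟩
  | sup s t ihs iht =>
    intro p q h
    change TransGen _ p q at h
    have hstep : ∀ p q, (evr (nuOp C T x hx) s p q ∨ evr (nuOp C T x hx) t p q) →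
        comb ⟨C.top, hx⟩ (evr C.ν (.sup s t) x C.top) (evr C.ν (.sup s t))
          (evr T.ν (.sup s t)) p q := by
      rintro p q (h | h)
      · exact comb_mono (evr_sup_left _ _) evr_sup_left evr_sup_left p q (ihs p q h)
      · exact comb_mono (evr_sup_right _ _) evr_sup_right evr_sup_right p q (iht p q h)
    have htr := comb_trans (a := T.top) (yy := ⟨C.top, hx⟩) (R := evr C.ν (.sup s t) x C.top)
      (P := evr C.ν (.sup s t)) (Q := evr T.ν (.sup s t))
      (fun _ _ _ h h' => C.ev_trans h h') (fun _ _ _ h h' => T.ev_trans h h')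
      (fun c hc => C.not_top_lt _ (C.ev_lt hc)) (fun h _ => h)
    induction h with
    | single h => exact hstep _ _ h
    | tail _ h ih => exact htr _ _ _ ih (hstep _ _ h)

include hbot in
theorem evr_op_lower (t : LatTerm) :
    ∀ p q, comb ⟨C.top, hx⟩ False (evr C.ν t) (evr T.ν t) p q →
      evr (nuOp C T x hx) t p q := by
  induction t with
  | var g =>
    intro p q h
    exact comb_mono (fun h => h.elim) (fun _ _ h => h) (fun _ _ h => h) p q h
  | inf s t ihs iht =>
    intro p q h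
    exact ⟨ihs p q (comb_mono (fun h => h) (fun _ _ h => h.1) (fun _ _ h => h.1) p q h),
      iht p q (comb_mono (fun h => h) (fun _ _ h => h.2) (fun _ _ h => h.2) p q h)⟩
  | sup s t ihs iht =>
    intro p q h
    have h' := comb_transGen (P := fun u v => evr C.ν s u v ∨ evr C.ν t u v)
      (Q := fun u v => evr T.ν s u v ∨ evr T.ν t u v)
      (fun v hv => hbot v (hv.elim C.ev_lt C.ev_lt))
      (fun v hv => T.not_top_lt v (hv.elim T.ev_lt T.ev_lt)) p q h
    change TransGen _ p q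
    have key : ∀ p q, comb (a := T.top) ⟨C.top, hx⟩ False
        (fun u v => evr C.ν s u v ∨ evr C.ν t u v)
        (fun u v => evr T.ν s u v ∨ evr T.ν t u v) p q →
        TransGen (fun u v => evr (nuOp C T x hx) s u v ∨ evr (nuOp C T x hx) t u v) p q := by
      rintro (_ | _ | ⟨v, c⟩) (_ | _ | ⟨v', c'⟩) h
      · exact h.elim
      · exact h.elim
      · exact TransGen.single (h.imp (fun h => ihs _ _ h) (fun h => iht _ _ h))
      · exact h.elim
      · exact h.elim
      · exact h.elim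
      · exact h.elim
      · obtain ⟨h3, h4⟩ := h
        have h5 : TransGen (fun u v => evr (nuOp C T x hx) s u v ∨ evr (nuOp C T x hx) t u v)
            (.mk v ⟨C.top, hx⟩) .top :=
          TransGen.single (h4.imp (fun h => ihs _ _ ⟨Or.inl rfl, h⟩)
            (fun h => iht _ _ ⟨Or.inl rfl, h⟩))
        rcases h3 with h3 | h3
        · rw [h3]; exact h5
        · refine TransGen.head ?_ h5
          exact h3.imp (fun h => ihs _ _ (Or.inl ⟨rfl, h⟩)) (fun h => iht _ _ (Or.inl ⟨rfl, h⟩))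
      · rcases h with ⟨h3, h4⟩ | ⟨h3, h4, h5⟩
        · rw [← h3]
          exact TransGen.single (h4.imp (fun h => ihs _ _ (Or.inl ⟨rfl, h⟩))
            (fun h => iht _ _ (Or.inl ⟨rfl, h⟩)))
        · rw [h4]
          have h6 : TransGen (fun u v => evr (nuOp C T x hx) s u v ∨ evr (nuOp C T x hx) t u v)
              (.mk v ⟨C.top, hx⟩) (.mk v' ⟨C.top, hx⟩) :=
            TransGen.single (h3.imp (fun h => ihs _ _ (Or.inr ⟨h, rfl, Or.inl rfl⟩))
              (fun h => iht _ _ (Or.inr ⟨h, rfl, Or.inl rfl⟩)))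
          rcases h5 with h5 | h5
          · rw [h5]; exact h6
          · refine TransGen.head ?_ h6
            exact h5.imp (fun h => ihs _ _ (Or.inl ⟨rfl, h⟩)) (fun h => iht _ _ (Or.inl ⟨rfl, h⟩))
    clear h
    induction h' with
    | single h => exact key _ _ h
    | tail _ h ih => exact ih.trans (key _ _ h)

theorem nuOp_trans (g : ℕ) : ∀ u v w, nuOp C T x hx g u v → nuOp C T x hx g v w →
    nuOp C T x hx g u w :=
  comb_trans (C.ν_trans g) (T.ν_trans g) (fun _ hc => C.not_top_lt _ (C.ν_lt _ _ _ hc))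
    (fun h h' => ⟨h, h'⟩)

/-- The level step: the new model. -/
def op (hbot' : ∀ c, c ≠ x → C.lt x c) : Model where
  E := OpPt {v : T.E // v ≠ T.top} {c : C.E // c ≠ x}
  fin := by
    have := C.fin
    have := T.fin
    let f : OpPt {v : T.E // v ≠ T.top} {c : C.E // c ≠ x} →
        Option (Option ({v : T.E // v ≠ T.top} × {c : C.E // c ≠ x})) := fun p =>
      match p with
      | .bot => none
      | .top => some none
      | .mk v c => some (some (v, c))
    apply Finite.of_injective f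
    rintro (_ | _ | ⟨v, c⟩) (_ | _ | ⟨v', c'⟩) h <;> simp_all [f]
  lt := comb ⟨C.top, hx⟩ True C.lt T.lt
  irrefl := by
    rintro (_ | _ | ⟨v, c⟩) h
    · exact h
    · exact h
    · rcases h with h | h
      · exact C.irrefl _ h.2
      · exact T.irrefl _ h.1
  trans := comb_trans C.trans T.trans (fun c hc => C.not_top_lt _ hc) (fun _ _ => trivial)
  top := .top
  lt_top := by
    rintro (_ | _ | ⟨v, c⟩) h
    · trivial
    · exact (h rfl).elim
    · refine ⟨?_, T.lt_top _ v.2⟩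
      by_cases hc : c.1 = C.top
      · exact Or.inl (Subtype.ext hc)
      · exact Or.inr (C.lt_top _ hc)
  ν := nuOp C T x hx
  ν_lt g := comb_mono (fun _ => trivial) (C.ν_lt g) (T.ν_lt g)
  ν_trans g := nuOp_trans C T x hx g
  lh := by
    intro t p q r h1 h2 h3
    have h4 := evr_op_upper C T x hx t p r h3
    have lhC : ∀ c : C.E, c ≠ x → evr C.ν t x C.top → evr C.ν t x c := by
      intro c hc h
      by_cases hct : c = C.top
      · rw [hct]; exact h
      · exact C.lh t _ _ _ (hbot' c hc) (C.lt_top c hct) h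
    revert h1 h2 h4
    clear h3
    rcases p with (_ | _ | ⟨v, c⟩) <;> rcases q with (_ | _ | ⟨v', c'⟩) <;>
      rcases r with (_ | _ | ⟨v'', c''⟩) <;> intro h1 h2 h4 <;>
      first
      | exact h1.elim
      | exact h2.elim
      | skip
    · -- bot, mk, top
      apply evr_op_lower C T x hx hbot t
      exact lhC _ c'.2 h4
    · -- bot, mk, mk
      apply evr_op_lower C T x hx hbot t
      rcases h2 with ⟨h2, h5⟩ | ⟨h2, h5, h6⟩
      · exact C.lh t _ _ _ (hbot' _ c'.2) h5 h4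
      · rw [h5] at h4
        exact lhC _ c'.2 h4
    · -- mk, mk, top
      apply evr_op_lower C T x hx hbot t
      obtain ⟨h4, h7⟩ := h4
      rcases h1 with ⟨h1, h5⟩ | ⟨h1, h5, h6⟩
      · have hc : c.1 ≠ C.top := by
          intro hc
          rw [hc] at h5
          exact C.not_top_lt _ h5
        refine Or.inl ⟨h1, ?_⟩
        have h8 : evr C.ν t c C.top := by
          rcases h4 with h4 | h4
          · exact (hc (by rw [h4])).elim
          · exact h4
        by_cases hc' : c'.1 = C.top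
        · rw [hc']; exact h8
        · exact C.lh t _ _ _ h5 (C.lt_top _ hc') h8
      · exact Or.inr ⟨T.lh t _ _ _ h1 (T.lt_top _ v'.2) h7, h5, h4⟩
    · -- mk, mk, mk
      apply evr_op_lower C T x hx hbot t
      rcases h1 with ⟨h1, h5⟩ | ⟨h1, h5, h6⟩
      · have hc : c.1 ≠ C.top := by
          intro hc
          rw [hc] at h5
          exact C.not_top_lt _ h5
        rcases h2 with ⟨h2, h8⟩ | ⟨h2, h8, h9⟩
        · rcases h4 with ⟨h4, h10⟩ | ⟨h4, h10, h11⟩
          · exact Or.inl ⟨h1, C.lh t _ _ _ h5 h8 h10⟩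
          · rw [h1, h2] at h4
            exact (T.irrefl _ (T.ev_lt h4)).elim
        · rcases h4 with ⟨h4, h10⟩ | ⟨h4, h10, h11⟩
          · rw [h1.symm, h4] at h2
            exact (T.irrefl _ h2).elim
          · refine Or.inl ⟨h1, ?_⟩
            have h12 : evr C.ν t c C.top := by
              rcases h11 with h11 | h11
              · exact (hc (by rw [h11])).elim
              · exact h11
            by_cases hc' : c'.1 = C.top
            · rw [hc']; exact h12
            · exact C.lh t _ _ _ h5 (C.lt_top _ hc') h12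
      · rcases h2 with ⟨h2, h8⟩ | ⟨h2, h8, h9⟩
        · rw [h5] at h8
          exact (C.not_top_lt _ h8).elim
        · rcases h4 with ⟨h4, h10⟩ | ⟨h4, h10, h11⟩
          · rw [h4] at h1
            exact (T.irrefl _ (T.trans _ _ _ h1 h2)).elim
          · exact Or.inr ⟨T.lh t _ _ _ h1 h2 h4, h5, h11⟩

end Op

end Pool.Agent.Helper74.Perm
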