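import Pool.Agent.Helper74.Perm.Reg

/-!
# A nontrivial ortholattice identity that holds in all finite `Reg(e)`
-/

namespace Pool.Agent.Helper74.Perm

open Relation

variable {E : Type*}

/-- a nonempty open set contains a pair with nothing in between -/
theorem exists_cover [Finite E] (e : StrictOrdering E) {U : Set (E × E)} (hU : OpenRel e.rel U) :
    ∀ (n : ℕ) (x y : E), (x, y) ∈ U → {z | (x, z) ∈ e.rel ∧ (z, y) ∈ e.rel}.ncard = n →
      ∃ x y, (x, y) ∈ U ∧ ∀ z, (x, z) ∈ e.rel → (z, y) ∉ e.rel := by
  intro n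
  induction n using Nat.strong_induction_on with
  | _ n ih =>
    intro x y hxy hn
    by_cases h : ∀ z, (x, z) ∈ e.rel → (z, y) ∉ e.rel
    · exact ⟨x, y, hxy, h⟩
    · push Not at h
      obtain ⟨z, hxz, hzy⟩ := h
      have hor : (x, z) ∈ U ∨ (z, y) ∈ U := by
        by_contra hc
        push Not at hc
        exact (hU.2 _ _ _ ⟨hxz, hc.1⟩ ⟨hzy, hc.2⟩).2 hxy
      rcases hor with hor | hor
      · refine ih _ ?_ x z hor rfl
        rw [← hn]
        apply Set.ncard_lt_ncard
        · constructor
          · rintro w ⟨h1, h2⟩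
            exact ⟨h1, e.trans _ _ _ h2 hzy⟩
          · intro hsub
            exact e.irrefl z (hsub ⟨hxz, hzy⟩).2
        · exact Set.toFinite _
      · refine ih _ ?_ z y hor rfl
        rw [← hn]
        apply Set.ncard_lt_ncard
        · constructor
          · rintro w ⟨h1, h2⟩
            exact ⟨e.trans _ _ _ hxz h1, h2⟩
          · intro hsub
            exact e.irrefl z (hsub ⟨hxz, hzy⟩).1
        · exact Set.toFinite _

/-- on a pair with nothing in between the closure adds nothing -/
theorem mem_of_mem_cl_cover (e : StrictOrdering E) {A : Set (E × E)} (hA : A ⊆ e.rel) {x y : E}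
    (hcov : ∀ z, (x, z) ∈ e.rel → (z, y) ∉ e.rel) (h : (x, y) ∈ cl A) : (x, y) ∈ A := by
  change TransGen _ x y at h
  cases h with
  | single h => exact h
  | tail h1 h2 =>
    have h3 : (x, _) ∈ cl A := h1
    exact (hcov _ (cl_subset_of_closed (closedRel_rel e) hA h3) (hA h2)).elim

theorem four_clause [Finite E] (e : StrictOrdering E) (a b : Reg e) :
    (a ⊔ b) ⊓ (a ⊔ bᶜ) ⊓ (aᶜ ⊔ b) ⊓ (aᶜ ⊔ bᶜ) = ⊥ := by
  set c := (a ⊔ b) ⊓ (a ⊔ bᶜ) ⊓ (aᶜ ⊔ b) ⊓ (aᶜ ⊔ bᶜ) with hc
  have hU := openRel_interiorRel e c.1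
  have hempty : interiorRel e.rel c.1 = ∅ := by
    rw [Set.eq_empty_iff_forall_notMem]
    rintro ⟨x₀, y₀⟩ hp
    obtain ⟨x, y, hxy, hcov⟩ := exists_cover e hU _ x₀ y₀ hp rfl
    have hcxy : (x, y) ∈ c.1 := interiorRel_subset _ _ hxy
    have hexy : (x, y) ∈ e.rel := c.2.1 hcxy
    have h1 : c ≤ a ⊔ b := inf_le_left.trans (inf_le_left.trans inf_le_left)
    have h2 : c ≤ a ⊔ bᶜ := inf_le_left.trans (inf_le_left.trans inf_le_right)
    have h3 : c ≤ aᶜ ⊔ b := inf_le_left.trans inf_le_right
    have h4 : c ≤ aᶜ ⊔ bᶜ := inf_le_right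
    have key : ∀ s t : Reg e, c ≤ s ⊔ t → (x, y) ∈ s.1 ∨ (x, y) ∈ t.1 := by
      intro s t hst
      exact mem_of_mem_cl_cover e (Set.union_subset s.2.1 t.2.1) hcov (hst hcxy)
    have hperp : ∀ s : Reg e, (x, y) ∈ (sᶜ).1 → (x, y) ∉ s.1 := by
      intro s hs
      exact (mem_of_mem_cl_cover e Set.sdiff_subset hcov hs).2
    have k1 := key _ _ h1
    have k2 := key _ _ h2
    have k3 := key _ _ h3
    have k4 := key _ _ h4
    have pa := hperp a
    have pb := hperp b
    tauto
  apply Subtype.ext
  rw [Reg.bot_val, c.2.2, hempty]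
  exact cl_eq_of_closed (by simp [ClosedRel])

/-- The ortholattice with four atoms `a, a', b, b'`. -/
inductive MO2 : Type
  | bot | top | a | a' | b | b'
  deriving DecidableEq

namespace MO2

instance : Fintype MO2 where
  elems := {bot, top, a, a', b, b'}
  complete := by intro x; cases x <;> simp

/-- the order -/
def leB (x y : MO2) : Bool := x == bot || y == top || x == y

/-- join -/
def join (x y : MO2) : MO2 := if x = y then x else if x = bot then y else if y = bot then x else top

/-- meet -/
def meet (x y : MO2) : MO2 := if x = y then x else if x = top then y else if y = top then x else bot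

/-- complement -/
def perp : MO2 → MO2
  | bot => top
  | top => bot
  | a => a'
  | a' => a
  | b => b'
  | b' => b

instance : Ortholattice MO2 where
  le x y := leB x y = true
  le_refl := by decide
  le_trans := by decide
  le_antisymm := by decide
  sup := join
  inf := meet
  le_sup_left := by decide
  le_sup_right := by decide
  sup_le := by decide
  inf_le_left := by decide
  inf_le_right := by decide
  le_inf := by decide
  top := top
  le_top := by decide
  bot := bot
  bot_le := by decide
  compl := perp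
  compl_anti := by decide
  compl_invol := by decide
  inf_compl_self := by decide

theorem ne : ((a ⊔ b) ⊓ (a ⊔ bᶜ) ⊓ (aᶜ ⊔ b) ⊓ (aᶜ ⊔ bᶜ) : MO2) ≠ ⊥ := by
  change meet (meet (meet (join a b) (join a (perp b))) (join (perp a) b))
    (join (perp a) (perp b)) ≠ bot
  decide

end MO2

end Pool.Agent.Helper74.Perm
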