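import Mathlib

/-!
# The lattice `Reg(e)` of regular closed subsets of a strict ordering

Definitions used in the statements for problem `MP_5c7113_al`.
-/

namespace Pool.Agent.Helper74.Perm

/-- A strict ordering on `E`: an irreflexive transitive relation, given as a set of pairs. -/
structure StrictOrdering (E : Type*) where
  /-- the set of pairs -/
  rel : Set (E × E)
  irrefl : ∀ x, (x, x) ∉ rel
  trans : ∀ x y z, (x, y) ∈ rel → (y, z) ∈ rel → (x, z) ∈ rel

/-- The transitive closure of a relation. -/
def cl {E : Type*} (a : Set (E × E)) : Set (E × E) :=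
  {p | Relation.TransGen (fun x y => (x, y) ∈ a) p.1 p.2}

/-- A relation is closed when it is transitive. -/
def ClosedRel {E : Type*} (a : Set (E × E)) : Prop :=
  ∀ x y z, (x, y) ∈ a → (y, z) ∈ a → (x, z) ∈ a

/-- `a ⊆ e` is open when `e \ a` is closed. -/
def OpenRel {E : Type*} (e a : Set (E × E)) : Prop :=
  a ⊆ e ∧ ClosedRel (e \ a)

/-- The interior of `a`: the union of all open subsets of `a`, which (see `openRel_interiorRel`)
is open, hence the largest open subset of `a`. -/
def interiorRel {E : Type*} (e a : Set (E × E)) : Set (E × E) :=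
  ⋃₀ {u | OpenRel e u ∧ u ⊆ a}

/-- `Reg(e)`: the regular closed subsets of `e`, those `a` with `a = cl (int a)`. -/
def Reg {E : Type*} (e : StrictOrdering E) :=
  {a : Set (E × E) // a ⊆ e.rel ∧ a = cl (interiorRel e.rel a)}

variable {E : Type*}

theorem subset_cl (a : Set (E × E)) : a ⊆ cl a := fun _ h => Relation.TransGen.single h

theorem cl_mono {a b : Set (E × E)} (h : a ⊆ b) : cl a ⊆ cl b :=
  fun _ hp => Relation.TransGen.mono (fun _ _ hxy => h hxy) _ _ hp

theorem closedRel_cl (a : Set (E × E)) : ClosedRel (cl a) :=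
  fun _ _ _ h1 h2 => Relation.TransGen.trans h1 h2

theorem cl_subset_of_closed {a b : Set (E × E)} (hb : ClosedRel b) (h : a ⊆ b) : cl a ⊆ b := by
  rintro ⟨x, y⟩ hp
  change Relation.TransGen (fun x y => (x, y) ∈ a) x y at hp
  induction hp with
  | single h1 => exact h h1
  | tail _ h2 ih => exact hb _ _ _ ih (h h2)

theorem cl_eq_of_closed {a : Set (E × E)} (ha : ClosedRel a) : cl a = a :=
  Set.Subset.antisymm (cl_subset_of_closed ha subset_rfl) (subset_cl a)

theorem cl_cl (a : Set (E × E)) : cl (cl a) = cl a := cl_eq_of_closed (closedRel_cl a)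

theorem openRel_sUnion (e : StrictOrdering E) (s : Set (Set (E × E)))
    (h : ∀ u ∈ s, OpenRel e.rel u) : OpenRel e.rel (⋃₀ s) := by
  constructor
  · exact Set.sUnion_subset fun u hu => (h u hu).1
  · rintro x y z ⟨h1, h1'⟩ ⟨h2, h2'⟩
    refine ⟨e.trans _ _ _ h1 h2, ?_⟩
    rintro ⟨u, hu, hxz⟩
    have := (h u hu).2 x y z ⟨h1, fun hh => h1' ⟨u, hu, hh⟩⟩ ⟨h2, fun hh => h2' ⟨u, hu, hh⟩⟩
    exact this.2 hxz

theorem openRel_interiorRel (e : StrictOrdering E) (a : Set (E × E)) :
    OpenRel e.rel (interiorRel e.rel a) :=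
  openRel_sUnion e _ fun _ hu => hu.1

theorem interiorRel_subset (e a : Set (E × E)) : interiorRel e a ⊆ a :=
  Set.sUnion_subset fun _ hu => hu.2

theorem subset_interiorRel {e a u : Set (E × E)} (hu : OpenRel e u) (h : u ⊆ a) :
    u ⊆ interiorRel e a := fun _ hp => ⟨u, ⟨hu, h⟩, hp⟩

theorem interiorRel_mono {e a b : Set (E × E)} (h : a ⊆ b) :
    interiorRel e a ⊆ interiorRel e b :=
  Set.sUnion_subset fun _ hu => subset_interiorRel hu.1 (hu.2.trans h)

theorem openRel_union (e : StrictOrdering E) {a b : Set (E × E)} (ha : OpenRel e.rel a)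
    (hb : OpenRel e.rel b) : OpenRel e.rel (a ∪ b) := by
  have := openRel_sUnion e {a, b} (by
    intro u hu
    rcases hu with rfl | hu
    · exact ha
    · rw [Set.mem_singleton_iff] at hu
      subst hu
      exact hb)
  simpa [Set.sUnion_insert] using this

theorem closedRel_rel (e : StrictOrdering E) : ClosedRel e.rel := e.trans

/-- the closure of an open set is regular closed -/
theorem regular_cl (e : StrictOrdering E) {u : Set (E × E)} (hu : OpenRel e.rel u) :
    cl u ⊆ e.rel ∧ cl u = cl (interiorRel e.rel (cl u)) := by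
  refine ⟨cl_subset_of_closed (closedRel_rel e) hu.1, Set.Subset.antisymm ?_ ?_⟩
  · exact cl_mono (subset_interiorRel hu (subset_cl u))
  · exact cl_subset_of_closed (closedRel_cl u) (interiorRel_subset _ _)

theorem Reg.closed {e : StrictOrdering E} (a : Reg e) : ClosedRel a.1 := by
  rw [a.2.2]; exact closedRel_cl _

theorem Reg.cl_eq {e : StrictOrdering E} (a : Reg e) : cl a.1 = a.1 := cl_eq_of_closed a.closed

/-- join in `Reg(e)`: the closure of the union -/
def Reg.join {e : StrictOrdering E} (a b : Reg e) : Reg e :=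
  ⟨cl (a.1 ∪ b.1), by
    have h : cl (a.1 ∪ b.1) = cl (interiorRel e.rel a.1 ∪ interiorRel e.rel b.1) := by
      apply Set.Subset.antisymm
      · apply cl_subset_of_closed (closedRel_cl _)
        apply Set.union_subset
        · conv_lhs => rw [a.2.2]
          exact cl_mono Set.subset_union_left
        · conv_lhs => rw [b.2.2]
          exact cl_mono Set.subset_union_right
      · exact cl_mono (Set.union_subset_union (interiorRel_subset _ _) (interiorRel_subset _ _))
    rw [h]
    exact regular_cl e (openRel_union e (openRel_interiorRel e _) (openRel_interiorRel e _))⟩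

/-- meet in `Reg(e)`: the closure of the interior of the intersection -/
def Reg.meet {e : StrictOrdering E} (a b : Reg e) : Reg e :=
  ⟨cl (interiorRel e.rel (a.1 ∩ b.1)), regular_cl e (openRel_interiorRel e _)⟩

/-- `Reg(e)` is a lattice under inclusion, with join `cl (a ∪ b)` and meet `cl (int (a ∩ b))`. -/
instance Reg.instLattice (e : StrictOrdering E) : Lattice (Reg e) where
  le a b := a.1 ⊆ b.1
  le_refl a := subset_rfl
  le_trans _ _ _ h1 h2 := Set.Subset.trans h1 h2
  le_antisymm a b h1 h2 := Subtype.ext (Set.Subset.antisymm h1 h2)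
  sup := Reg.join
  inf := Reg.meet
  le_sup_left a b := Set.Subset.trans Set.subset_union_left (subset_cl _)
  le_sup_right a b := Set.Subset.trans Set.subset_union_right (subset_cl _)
  sup_le a b c h1 h2 := cl_subset_of_closed c.closed (Set.union_subset h1 h2)
  inf_le_left a b := by
    change cl (interiorRel e.rel (a.1 ∩ b.1)) ⊆ a.1
    exact cl_subset_of_closed a.closed ((interiorRel_subset _ _).trans Set.inter_subset_left)
  inf_le_right a b := by
    change cl (interiorRel e.rel (a.1 ∩ b.1)) ⊆ b.1
    exact cl_subset_of_closed b.closed ((interiorRel_subset _ _).trans Set.inter_subset_right)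
  le_inf a b c h1 h2 := by
    change a.1 ⊆ cl (interiorRel e.rel (b.1 ∩ c.1))
    conv_lhs => rw [a.2.2]
    exact cl_mono (interiorRel_mono (Set.subset_inter h1 h2))

theorem Reg.le_def {e : StrictOrdering E} (a b : Reg e) : a ≤ b ↔ a.1 ⊆ b.1 := Iff.rfl

theorem Reg.sup_val {e : StrictOrdering E} (a b : Reg e) : (a ⊔ b).1 = cl (a.1 ∪ b.1) := rfl

theorem Reg.inf_val {e : StrictOrdering E} (a b : Reg e) :
    (a ⊓ b).1 = cl (interiorRel e.rel (a.1 ∩ b.1)) := rfl

/-- Lattice terms over the variables `x_0, x_1, ...`. -/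
inductive LatTerm : Type
  | var (n : ℕ)
  | sup (s t : LatTerm)
  | inf (s t : LatTerm)

/-- Value of a lattice term in a lattice under an assignment of the variables. -/
def LatTerm.eval {L : Type*} [Lattice L] (v : ℕ → L) : LatTerm → L
  | .var n => v n
  | .sup s t => s.eval v ⊔ t.eval v
  | .inf s t => s.eval v ⊓ t.eval v

/-- An ortholattice: a lattice with least element `⊥` and greatest element `⊤` and an
orthocomplementation `x ↦ xᶜ`. -/
class Ortholattice (L : Type*) extends Lattice L, BoundedOrder L, Compl L where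
  /-- order reversing -/
  compl_anti : ∀ x y : L, x ≤ y → yᶜ ≤ xᶜ
  /-- involutive -/
  compl_invol : ∀ x : L, xᶜᶜ = x
  /-- complementation -/
  inf_compl_self : ∀ x : L, x ⊓ xᶜ = ⊥

/-- the complement of a closed subset of `e` is open -/
theorem openRel_diff (e : StrictOrdering E) {a : Set (E × E)} (ha : ClosedRel a) :
    OpenRel e.rel (e.rel \ a) := by
  refine ⟨Set.sdiff_subset, ?_⟩
  rintro x y z ⟨h1, h1'⟩ ⟨h2, h2'⟩
  refine ⟨e.trans _ _ _ h1 h2, fun h => h.2 ?_⟩
  have h3 : (x, y) ∈ a := by
    by_contra hc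
    exact h1' ⟨h1, hc⟩
  have h4 : (y, z) ∈ a := by
    by_contra hc
    exact h2' ⟨h2, hc⟩
  exact ha _ _ _ h3 h4

/-- orthocomplement in `Reg(e)`: the closure of the complement in `e` -/
def Reg.perp {e : StrictOrdering E} (a : Reg e) : Reg e :=
  ⟨cl (e.rel \ a.1), regular_cl e (openRel_diff e a.closed)⟩

/-- the interior of `a` is the complement in `e` of the closure of the complement -/
theorem interiorRel_eq (e : StrictOrdering E) (a : Set (E × E)) :
    interiorRel e.rel a = e.rel \ cl (e.rel \ a) := by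
  apply Set.Subset.antisymm
  · rintro ⟨x, y⟩ ⟨u, ⟨hu, hua⟩, hp⟩
    refine ⟨hu.1 hp, fun h => ?_⟩
    have h1 : cl (e.rel \ a) ⊆ e.rel \ u :=
      cl_subset_of_closed hu.2 (Set.sdiff_subset_sdiff_right hua)
    exact (h1 h).2 hp
  · apply subset_interiorRel
    · exact openRel_diff e (closedRel_cl _)
    · rintro p ⟨hp, hp'⟩
      by_contra hc
      exact hp' (subset_cl _ ⟨hp, hc⟩)

/-- `Reg(e)` is an ortholattice with bottom `∅`, top `e` and orthocomplement
`a ↦ cl (e \ a)`. -/
instance Reg.instOrtholattice (e : StrictOrdering E) : Ortholattice (Reg e) where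
  top := ⟨e.rel, by
    have h : OpenRel e.rel e.rel := ⟨subset_rfl, by simp [ClosedRel]⟩
    have h2 := regular_cl e h
    rwa [cl_eq_of_closed (closedRel_rel e)] at h2⟩
  le_top a := a.2.1
  bot := ⟨∅, by
    have h : OpenRel e.rel ∅ := ⟨Set.empty_subset _, by simpa using closedRel_rel e⟩
    have h2 := regular_cl e h
    rwa [cl_eq_of_closed (a := ∅) (by simp [ClosedRel])] at h2⟩
  bot_le a := Set.empty_subset _
  compl := Reg.perp
  compl_anti a b h := cl_mono (Set.sdiff_subset_sdiff_right h)
  compl_invol a := by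
    apply Subtype.ext
    change cl (e.rel \ cl (e.rel \ a.1)) = a.1
    rw [← interiorRel_eq]
    exact a.2.2.symm
  inf_compl_self a := by
    apply Subtype.ext
    change cl (interiorRel e.rel (a.1 ∩ cl (e.rel \ a.1))) = ∅
    have hU := openRel_interiorRel e (a.1 ∩ cl (e.rel \ a.1))
    have hsub := interiorRel_subset e.rel (a.1 ∩ cl (e.rel \ a.1))
    have hempty : interiorRel e.rel (a.1 ∩ cl (e.rel \ a.1)) = ∅ := by
      rw [Set.eq_empty_iff_forall_notMem]
      rintro ⟨x, y⟩ hp
      have hxy : Relation.TransGen (fun x y => (x, y) ∈ e.rel \ a.1) x y := (hsub hp).2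
      have hcl : cl (e.rel \ a.1) ⊆ e.rel :=
        cl_subset_of_closed (closedRel_rel e) Set.sdiff_subset
      revert hp
      induction hxy using Relation.TransGen.head_induction_on with
      | single h => exact fun hp => h.2 (hsub hp).1
      | head h1 h2 ih =>
        intro hp
        exact (hU.2 _ _ _ ⟨h1.1, fun hh => h1.2 (hsub hh).1⟩ ⟨hcl h2, ih⟩).2 hp
    rw [hempty]
    exact cl_eq_of_closed (by simp [ClosedRel])

theorem Reg.perp_val {e : StrictOrdering E} (a : Reg e) : (aᶜ).1 = cl (e.rel \ a.1) := rfl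

theorem Reg.bot_val {e : StrictOrdering E} : (⊥ : Reg e).1 = ∅ := rfl

theorem Reg.top_val {e : StrictOrdering E} : (⊤ : Reg e).1 = e.rel := rfl

/-- Ortholattice terms over the variables `x_0, x_1, ...`. -/
inductive OrthoTerm : Type
  | var (n : ℕ)
  | zero
  | one
  | perp (s : OrthoTerm)
  | sup (s t : OrthoTerm)
  | inf (s t : OrthoTerm)

/-- Value of an ortholattice term in an ortholattice under an assignment of the variables. -/
def OrthoTerm.eval {L : Type*} [Ortholattice L] (v : ℕ → L) : OrthoTerm → L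
  | .var n => v n
  | .zero => ⊥
  | .one => ⊤
  | .perp s => (s.eval v)ᶜ
  | .sup s t => s.eval v ⊔ t.eval v
  | .inf s t => s.eval v ⊓ t.eval v

end Pool.Agent.Helper74.Perm
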